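import Pool.Agent.R664.DF.Virt

/-!
Let `G` be a finitely generated group, `L` a finitely generated subgroup of `G` containing the
derived subgroup of `G`, and `K` a locally free normal subgroup of `L` such that `K⟨t⟩` has finite
index in `L` for some `t ∈ L`. Then `G` is residually finite. With `L = G` and `K = G'` this is the
question of the problem for all finitely generated groups whose abelianisation has torsion-free
rank at most one.
-/

set_option autoImplicit false

namespace Pool.Agent.Results.MP_dfe55f_al.LocallyFreeByCyclic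

theorem result (G : Type) [Group G] (hG : Group.FG G) (K L : Subgroup G)
    (hKL : K ≤ L) (hn : ∀ x ∈ L, ∀ k ∈ K, x * k * x⁻¹ ∈ K)
    (hfree : ∀ H : Subgroup G, H ≤ K → H.FG → IsFreeGroup H)
    (hL : commutator G ≤ L) (hLfg : L.FG)
    (ht : ∃ t ∈ L, (K ⊔ Subgroup.zpowers t).relIndex L ≠ 0) :
    ∀ g : G, g ≠ 1 → ∃ N : Subgroup G, N.Normal ∧ N.index ≠ 0 ∧ g ∉ N := by
  intro g hg
  have h := Pool.Agent.R664.DF.rf_of_derived K L hKL hn hfree hL hLfg ht
  obtain ⟨N, hN⟩ := Group.exists_finiteIndexNormalSubgroup_notMem g hg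
  exact ⟨N.toSubgroup, N.isNormal', N.isFiniteIndex'.index_ne_zero, hN⟩

end Pool.Agent.Results.MP_dfe55f_al.LocallyFreeByCyclic
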